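import Pool.Agent.H91.BetaG

set_option autoImplicit false

open H91.BetaG in
theorem Pool.Agent.Results.MP_523de7_an.Fails.result :
    ∃ b x : ℝ, 1 < b ∧ b < 2 ∧ x ∈ Set.Icc 0 (1 / (b - 1)) ∧
    (0 : EReal) < Filter.liminf (fun k : ℕ =>
      ((Real.logb 2 (H91.BetaG.Npre b x k) / k : ℝ) : EReal)) Filter.atTop ∧
    (H91.BetaG.Exp b x).Countable ∧
    ∀ m : EMetricSpace (ℕ → Fin 2), @dimH _ m (H91.BetaG.Exp b x) = 0 :=
  main
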